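import Mathlib
import Pool.Agent.H8EM.BS
import Pool.Agent.Y1.CT.Main

/-!
# The vanishing conjecture of Beilinson and Soulé for products of abelian varieties of almost all slope
types of all CM fields with arbitrary smooth varieties, over finite fields

Let `K i` (`i` in a finite set) be CM fields of degree `2 g i`. Nothing is assumed about their Galois
groups. They are pairwise independent: for `i ≠ k` and all complex embeddings `φ` of `K i` and `ψ` of
`K k` some automorphism of `ℂ` is the identity on `φ (K i)` and the complex conjugation on `ψ (K k)`
(this is no condition if there is only one field). We fix an isomorphism `ν` of the algebraic closure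
of `ℚ_p` with `ℂ`; it defines a `p`-adic valuation of `ℂ`, with the value one at `p`. Let `M i` be a
function with nonzero integral values, all of which divide `n i`, on the complex embeddings of
`K i`, invariant under complex conjugation. A CM type `Φ i` of `K i` (a choice of one element out of
each complex conjugate pair of embeddings; there are `2 ^ (g i)` types), `M i` and a real number
`κ ≠ 0` prescribe the slopes `(a + κ M) / 2` (at the embeddings in `Φ i`) and `(a - κ M) / 2` (outside
of `Φ i`) of a Weil number for `p ^ a` in `K i` (`HasType`). The case `M = 1`, `κ = a` is the case of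
ordinary abelian varieties.

There are `2 ^ (∑ i, g i)` families of CM types `Φ i` of the fields `K i`. A family is exceptional
(`exceptionalFamilies ν K M`) if the following statement (`Holds`) is false for it. Let `π i` be Weil
numbers for `q = p ^ a` that generate the fields `K i` and have the slope types `Φ i`, `M i`, and let
`f i` be monic polynomials whose complex roots are conjugates of `π i` (`IsPolyOf`), for instance the
characteristic polynomials of Frobenius of the abelian varieties in the isogeny classes of the `π i`
over the field with `q` elements. Let `A` be an abelian variety over the field with `Q = q ^ s`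
elements which is isogenous to a product of powers of abelian varieties coming from the field with
`q` elements, with characteristic polynomials `f i`. Let `U` be **any** smooth variety over the field
with `Q` elements such that the Frobenius endomorphism of `U` satisfies on the motivic cohomology groups
`H^i(A × U, ℚ(j))` nonzero polynomials with rational coefficients whose roots are unrelated to the
fields `K i` (`FrobeniusRootsQ T (Unrelated K)`). This is so if `U` is projective, its Chow motive is
finite-dimensional in the sense of Kimura (for instance, if `U` is dominated by a product of curves)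
and the Frobenius eigenvalues on the cohomology of `U` are unrelated to the fields `K i`: then a
power of the characteristic polynomial of Frobenius is zero on the motive.

A complex number `ρ ≠ 0` is unrelated to the fields `K i` (`Unrelated`) if a function `n` on the
complex embeddings of `K i` with `n (conj φ) = - n φ` which is invariant under all automorphisms of
`ℂ` that fix a power of `ρ` is zero. This is so if for each embedding `ψ` of `K i` some automorphism
which fixes a power of `ρ` is the complex conjugation on `ψ (K i)`: for instance, if a power of `ρ`
lies in a field linearly disjoint from the normal closures of the `K i`, or in a totally real field.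

Question 1 for the field with `Q` elements says that `H^i(X, ℤ(n)) = 0` for all smooth `X` over this
field, all `n ≥ 1` and all `i ≤ 0`. These groups are torsion-free, since `H^(i - 1)(X, ℤ/m(n)) = 0` for
`i ≤ 0` (Voevodsky, Rost; Geisser, Levine), so that it is sufficient to consider rational
coefficients. The theorem (`VanishingEquiv`):

1. for all `n ≥ 1` the groups `H^i(A × U, ℚ(n))` are zero for all `i ≤ 0` if and only if, for all `k` with
   `k ≤ dim A` and `k < n`, the groups `H^i(U, ℚ(n - k))` are zero for all `i ≤ - 2 k`;
2. **the vanishing of Beilinson and Soulé (for all `n ≥ 1` and all `i ≤ 0`) holds for `A × U` if and only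
   if it holds for `U`.**

No Tate, Beilinson or Parshin conjecture is assumed.

The framework: the Chow ring and the ring of correspondences of `A`, with rational coefficients, and
the cohomology of `A` (with coefficients in any field of characteristic zero which contains the
Frobenius eigenvalues), with the formal properties and the theorems of Tate on divisors and of Kimura
on the nilpotence of homologically trivial correspondences (`AbelianData`, `IsAbelian`); the motivic
cohomology groups `H^i(U, ℚ(j))` and `H^i(A × U, ℚ(j))`, with the products with cycles on `A`, the
push-forward from `A × U` to `U`, the operation of the correspondences from `A` to `A` and the Frobenius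
endomorphism of `U` (`RelData`, `IsRel`); the Frobenius endomorphism of `A × U` acts as `Q ^ j` in weight
`j` (`IsPure`; Soulé); and `H^i(U, ℚ(j)) = 0` for `j < 0`, and for `j = 0` and `i < 0`
(`LowWeightsZero`).

The proof: by the library theorems `V1168.UN.exists_classes` and `V1168.EF.exists_classes` of helper68
there are products `D t` of `c t` divisor classes on `A` with a dual system `E t` for the intersection
pairing such that `m = ∑ D t × (E t)_* m` for all `m` in `H^i(A × U, ℚ(j))`, where `(E t)_* m` is in
`H^(i - 2 c t)(U, ℚ(j - c t))`.

The theorem bounds the number of the exceptional families: it is at most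
`2 ^ (∑ i, g i) * ∑ i, C * (n i) ^ 2 * rate (K i) (g i) (q i)`, with an absolute constant `C`. Here
`q i` is any prime factor of `g i` (or `q i = 1`), and `rate K g q` is `(1 + log (2 g)) ^ 16` times
the smaller of the numbers `W (K) / √g` and `√g / q`; the second part of the theorem
(`WeightEstimate`) is `W (K) ≤ N ^ 2 * D ^ (1 / 4)`, where `N` is the number of the CM subfields of `K`
(with `K`) and `D` is the largest degree of a CM subfield of `K` that is normal over `ℚ` with a
nonabelian Galois group (`D = 1` if there are none). The number `W (K)` is `subfieldWeight K`.
-/

set_option autoImplicit false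

namespace Pool.Agent.Results.MP_e2821c_ag.AllCMTypesTimes

open NumberField Module Pool.Agent.H204R3.CM Pool.Agent.H977R3.CM Pool.Agent.TH170
  Pool.Agent.Y1.KN Pool.Agent.Y1.CT Pool.Agent.H8EM

/-- The conclusion `VanishingEquiv` holds for `A × U`, for all abelian varieties `A` whose Frobenius
eigenvalues are powers of conjugates of Weil numbers with the slope types `Φ i`, `M i`, and all `U`
unrelated to the fields `K i`. -/
def Holds {p : ℕ} [Fact p.Prime] (ν : PadicAlgCl p ≃+* ℂ) {I : Type} (K : I → Type)
    [∀ i, Field (K i)] [∀ i, NumberField (K i)] [∀ i, IsCMField (K i)]
    (M : ∀ i, (K i →+* ℂ) → ℤ) (Φ : ∀ i, Set (K i →+* ℂ)) : Prop :=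
  ForAllTypes ν K M (VanishingTimes (Unrelated K)) Φ

/-- The exceptional families of CM types. -/
def exceptionalFamilies {p : ℕ} [Fact p.Prime] (ν : PadicAlgCl p ≃+* ℂ) {I : Type} (K : I → Type)
    [∀ i, Field (K i)] [∀ i, NumberField (K i)] [∀ i, IsCMField (K i)]
    (M : ∀ i, (K i →+* ℂ) → ℤ) : Set (∀ i, Set (K i →+* ℂ)) :=
  {Φ | (∀ i, IsCMType (Φ i)) ∧ ¬ Holds ν K M Φ}

/-- **The vanishing of Beilinson and Soulé for `A × U` is equivalent to the one for `U`, for the abelian
varieties `A` of almost all slope types of all CM fields and all unrelated smooth varieties `U`.** -/
theorem result :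
    (∃ C : ℝ, 0 ≤ C ∧ ∀ (p : ℕ) [Fact p.Prime] (ν : PadicAlgCl p ≃+* ℂ) (I : Type) [Fintype I]
      (K : I → Type) [∀ i, Field (K i)] [∀ i, NumberField (K i)] [∀ i, IsCMField (K i)]
      (M : ∀ i, (K i →+* ℂ) → ℤ) (n g q : I → ℕ), PairwiseIndep K →
      (∀ i φ, M i (ComplexEmbedding.conjugate φ) = M i φ) → (∀ i, n i ≠ 0) →
      (∀ i φ, M i φ ∣ (n i : ℤ)) → (∀ i, finrank ℚ (K i) = 2 * g i) →
      (∀ i, q i ∣ g i ∧ (q i = 1 ∨ (q i).Prime)) →
      ((exceptionalFamilies ν K M).ncard : ℝ) ≤
        2 ^ (∑ i, g i) * ∑ i, C * (n i : ℝ) ^ 2 * rate (K i) (g i) (q i)) ∧
    WeightEstimate := by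
  obtain ⟨C, hC0, hC⟩ := ncard_of_unrel
  refine ⟨⟨C, hC0, ?_⟩, weight_estimate_holds⟩
  intro p _ ν I _ K _ _ _ M n g q hind hM hn hMn hg hq
  exact hC p ν I K M n g q hind hM hn hMn hg hq _ fun Q f hQ hR => vanishing_unrelated hQ hR

end Pool.Agent.Results.MP_e2821c_ag.AllCMTypesTimes
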