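import Mathlib
import Pool.Agent.H8EM.BS
import Pool.Agent.V1168.EF.Rel

/-!
# The vanishing conjecture of Beilinson and Soulé for products of arbitrary smooth varieties with abelian
varieties, over finite fields: the exceptional factors have small dimension

Let `K i` (`i` in a set `I`, which may be **infinite**) be CM fields with pair flips (`PairFlips`): for
any two complex embeddings `φ` of `K i` and `ψ` of `K k` (with `i = k` or not) which are neither equal
nor complex conjugate, some automorphism of `ℂ` is the identity on `φ (K i)` and the complex conjugation
on `ψ (K k)`. One CM field `K` of degree `2 g` has this property if the Galois group of its normal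
closure is the largest possible one (of order `2 ^ g g!`), or contains, for each pair of complex
conjugate embeddings, an element which exchanges them and fixes all other embeddings. We fix an
isomorphism `ν` of the algebraic closure of `ℚ_p` with `ℂ`; it defines a `p`-adic valuation `v` of `ℂ`
with `v p = 1`. Let `π i` be a Weil number for `q = p ^ a` in `K i` whose slope vector, the function
`2 v (φ π) - a` on the complex embeddings `φ` (`slopeVector`), is not zero (there are no other
conditions on the slopes).

For finite subsets `J` of `I` let `f i`, `i` in `J`, be monic polynomials whose complex roots are
conjugates of `π i` (`IsPolyOf`), for instance the characteristic polynomials of Frobenius of the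
abelian varieties in the isogeny classes of the `π i` over the field with `q` elements. Let `A` be an
abelian variety over the field with `Q = q ^ s` elements which is isogenous to a product of powers of
abelian varieties coming from the field with `q` elements, with characteristic polynomials `f i`, `i`
in `J` (`IsAbelian`).

Let `Ω` be a finite set of complex numbers, stable under the automorphisms of `ℂ`, whose elements are
nonzero and lie in CM fields or in totally real fields (`IsStable`). A number `ρ` is generated by `Ω`
(`Generated p Ω`) if it is not zero and a power of it is a product of powers of elements of `Ω` and of a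
power of `p`. Let `U` be **any** smooth variety over the field with `Q` elements such that the Frobenius
endomorphism of `U` satisfies on the motivic cohomology groups `H^i(A × U, ℚ(j))` nonzero polynomials
with rational coefficients whose roots are generated by `Ω` (`FrobeniusRootsQ T (Generated p Ω)`). This is
so if `U` is projective, its Chow motive is finite-dimensional in the sense of Kimura (for instance, if
`U` is dominated by a product of curves) and the Frobenius eigenvalues on the cohomology of `U` are
generated by `Ω`.

**The theorem: there is a finite subset `S` of `I` with `∑ [K i : ℚ] ≤ |Ω|`, the sum over `i` in `S`,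
such that for all finite sets `J` disjoint from `S`, all `f i`, `s`, `A` and `U` as above the
statement below is true.** The set `S` depends only on `Ω` and the `π i`. The Frobenius eigenvalues of
`U` are arbitrary here: they may generate the same fields `K i`, or fields containing them.

Question 1 for the field with `Q` elements says that `H^i(X, ℤ(n)) = 0` for all smooth `X` over this
field, all `n ≥ 1` and all `i ≤ 0`. These groups are torsion-free, since `H^(i - 1)(X, ℤ/m(n)) = 0` for
`i ≤ 0` (Voevodsky, Rost; Geisser, Levine), so that it is sufficient to consider rational
coefficients. The theorem (`VanishingEquiv`):

1. for all `n ≥ 1` the groups `H^i(A × U, ℚ(n))` are zero for all `i ≤ 0` if and only if, for all `k` with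
   `k ≤ dim A` and `k < n`, the groups `H^i(U, ℚ(n - k))` are zero for all `i ≤ - 2 k`;
2. **the vanishing of Beilinson and Soulé (for all `n ≥ 1` and all `i ≤ 0`) holds for `A × U` if and only
   if it holds for `U`.**

No Tate, Beilinson or Parshin conjecture is assumed.

The framework: the Chow ring and the ring of correspondences of `A`, with rational coefficients, and
the cohomology of `A` (with coefficients in any field of characteristic zero which contains the
Frobenius eigenvalues), with the formal properties and the theorems of Tate on divisors and of Kimura
on the nilpotence of homologically trivial correspondences (`AbelianData`, `IsAbelian`); the motivic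
cohomology groups `H^i(U, ℚ(j))` and `H^i(A × U, ℚ(j))`, with the products with cycles on `A`, the
push-forward from `A × U` to `U`, the operation of the correspondences from `A` to `A` and the Frobenius
endomorphism of `U` (`RelData`, `IsRel`); the Frobenius endomorphism of `A × U` acts as `Q ^ j` in weight
`j` (`IsPure`; Soulé); and `H^i(U, ℚ(j)) = 0` for `j < 0`, and for `j = 0` and `i < 0`
(`LowWeightsZero`).

The proof: by the library theorems `V1168.UN.exists_classes` and `V1168.EF.exists_classes` of helper68
there are products `D t` of `c t` divisor classes on `A` with a dual system `E t` for the intersection
pairing such that `m = ∑ D t × (E t)_* m` for all `m` in `H^i(A × U, ℚ(j))`, where `(E t)_* m` is in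
`H^(i - 2 c t)(U, ℚ(j - c t))`.

The set `S` (`V1168.EF.exists_factors` of helper68): let `x i` be the slope vectors of the `π i`. If a
product of a number `ρ` generated by `Ω` and of roots of the `f i`, no two of them complex conjugate, is
a power of `q` up to a root of unity, then, averaging valuations over automorphisms, the function
`σ ↦ x i (σ φ)` is in the space spanned by the functions `σ ↦ v (σ β) - v (conj (σ β))`, `β` in `Ω`, of
dimension at most `|Ω| / 2`, for some `i` in `J` and all embeddings `φ` of `K i`; and these functions are
linearly independent.
-/

set_option autoImplicit false

namespace Pool.Agent.Results.MP_e2821c_ag.EveryVarietyTimes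

open NumberField Pool.Agent.V1168.EF Pool.Agent.H8EM
open Pool.Agent.V1168.EV (PairFlips slopeVector)

/-- **The vanishing of Beilinson and Soulé for `A × U` is equivalent to the one for `U`, for all `U` with
Frobenius eigenvalues generated by the stable finite set `Ω` and all abelian varieties `A` given by Weil
numbers in a family of CM fields with pair flips, without factors in an exceptional set `S` with
`∑ [K i : ℚ] ≤ |Ω|`.** -/
theorem result {p : ℕ} [Fact p.Prime] (ν : PadicAlgCl p ≃+* ℂ) {I : Type}
    (K : I → Type) [∀ i, Field (K i)] [∀ i, NumberField (K i)] [∀ i, IsCMField (K i)]
    (hK : PairFlips K) (a : ℕ) (ha : 0 < a) (π : ∀ i, K i)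
    (hπ : ∀ i, π i * IsCMField.complexConj (K i) (π i) = (p : K i) ^ a)
    (hs : ∀ i, ∃ φ, slopeVector ν a (π i) φ ≠ 0) (Ω : Finset ℂ) (hΩ : IsStable Ω) :
    ∃ S : Finset I, ∑ i ∈ S, Module.finrank ℚ (K i) ≤ Ω.card ∧
      ForAllPolys π (p ^ a) S (fun _ q f => VanishingTimes (Generated p Ω) q f) := by
  obtain ⟨S, hS, h⟩ := exists_factors ν hK ha hπ hs hΩ
  exact ⟨S, hS, h _ fun J q f hq hR => vanishing_generated hq hR⟩

end Pool.Agent.Results.MP_e2821c_ag.EveryVarietyTimes
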