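import Mathlib
import Pool.Agent.H8EM.KBSFrom
import Pool.Agent.V1168.EV.Rel

/-!
# The vanishing conjecture of Beilinson and Soulé, for products of arbitrary varieties with
abelian varieties outside of finitely many lines of slope vectors, over finite fields

Let `K i` (`i` in a finite set) be CM fields with pair flips (`PairFlips`): for any two complex
embeddings `φ` of `K i` and `ψ` of `K k` (with `i = k` or not) which are neither equal nor complex
conjugate, some automorphism of `ℂ` is the identity on `φ (K i)` and the complex conjugation on
`ψ (K k)`. We fix an isomorphism `ν` of the algebraic closure of `ℚ_p` with `ℂ`; it defines a `p`-adic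
valuation `v` of `ℂ` with `v p = 1`. The slope vector of a Weil number `π` for `p ^ a` in `K i` is the
function `2 v (φ π) - a` on the complex embeddings `φ` of `K i` (`slopeVector`); it is odd.

Let `π i` be Weil numbers for `q = p ^ a` in `K i` with nonzero slope vectors, and let `f i` be monic
polynomials whose complex roots are conjugates of `π i` (`IsPolyOf`), for instance the characteristic
polynomials of Frobenius of the abelian varieties in the isogeny classes of the `π i` over the field
with `q` elements. Let `A` be an abelian variety over the field with `Q = q ^ s` elements which is
isogenous to a product of powers of abelian varieties coming from the field with `q` elements, with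
characteristic polynomials `f i` (`IsAbelian`).

A number `ρ` comes from the finite set `Ω` of complex numbers (`From p Ω`) if it is not zero and a power
of it is the product of a power of a conjugate of an element of `Ω`, or of `1`, and of a power of `p`.
Let `U` be **any** smooth variety over the field with `Q` elements such that the Frobenius
endomorphism of `U` satisfies on the groups `H^i(A × U, ℚ(j))` nonzero polynomials with
rational coefficients whose roots come from `Ω` (`FrobeniusRootsQ T (From p Ω)`).

**The theorem: there is a set `E` of at most `|Ω|` lines, each of them in the space of the functions on
the complex embeddings of one of the fields `K i`, such that for all `a`, all `π i` whose slope vectors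
are not on the lines in `E`, all `f i`, `s`, `A` and all `U` as above the statement below is true.**
So for one field `K` and a given `U` all the Weil numbers in `K` are allowed, except those whose slope
vector is a multiple of one of at most `|Ω|` vectors. The result `EveryVarietyTimes` for this problem
is about **one** family of Weil numbers (possibly in infinitely many fields). Here the fields are given,
all the Weil numbers in them are considered at the same time, and `Ω` is any finite set.

Question 1 for the field with `Q` elements says that `H^i(X, ℤ(n)) = 0` for all smooth `X` over this
field, all `n ≥ 1` and all `i ≤ 0`. These groups are torsion-free, since `H^(i - 1)(X, ℤ/m(n)) = 0` for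
`i ≤ 0` (Voevodsky, Rost; Geisser, Levine), so that it is sufficient to consider rational
coefficients. The theorem (`VanishingEquiv`):

1. for all `n ≥ 1` the groups `H^i(A × U, ℚ(n))` are zero for all `i ≤ 0` if and only if, for all `k` with
   `k ≤ dim A` and `k < n`, the groups `H^i(U, ℚ(n - k))` are zero for all `i ≤ - 2 k`;
2. **the vanishing of Beilinson and Soulé (for all `n ≥ 1` and all `i ≤ 0`) holds for `A × U` if and only
   if it holds for `U`.**

No Tate, Beilinson or Parshin conjecture is assumed.

The framework: the Chow ring and the ring of correspondences of `A`, with rational coefficients, and
the cohomology of `A` (with coefficients in any field of characteristic zero which contains the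
Frobenius eigenvalues), with the formal properties and the theorems of Tate on divisors and of Kimura
on the nilpotence of homologically trivial correspondences (`AbelianData`, `IsAbelian`); the motivic
cohomology groups `H^i(U, ℚ(j))` and `H^i(A × U, ℚ(j))`, with the products with cycles on `A`, the
push-forward from `A × U` to `U`, the operation of the correspondences from `A` to `A` and the Frobenius
endomorphism of `U` (`RelData`, `IsRel`); the Frobenius endomorphism of `A × U` acts as `Q ^ j` in weight
`j` (`IsPure`; Soulé); and `H^i(U, ℚ(j)) = 0` for `j < 0`, and for `j = 0` and `i < 0`
(`LowWeightsZero`).

The proof: by the library theorems `V1168.UN.exists_classes` and `V1168.EF.exists_classes` of helper68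
there are products `D t` of `c t` divisor classes on `A` with a dual system `E t` for the intersection
pairing such that `m = ∑ D t × (E t)_* m` for all `m` in `H^i(A × U, ℚ(j))`, where `(E t)_* m` is in
`H^(i - 2 c t)(U, ℚ(j - c t))`.

The lines (`V1168.EV.exists_lines_forall` of helper68): if a product of a number `ρ` from `Ω` and of roots
of the `f i`, no two of them complex conjugate, is a power of `q` up to a root of unity, then the slope
vector of one of the `π i` is on the line of a vector given by an element of `Ω`.
-/

set_option autoImplicit false

namespace Pool.Agent.Results.MP_e2821c_ag.ExceptionalSlopeLines

open NumberField Pool.Agent.V1168.EV Pool.Agent.H8EM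

/-- **The vanishing of Beilinson and Soulé for `A × U` is equivalent to the one for `U`, for all `U` with Frobenius
eigenvalues from the finite set `Ω` and all abelian varieties `A` given by Weil numbers in the CM fields
`K i` (with pair flips), with slope vectors outside of at most `|Ω|` lines.** -/
theorem result {p : ℕ} [Fact p.Prime] (ν : PadicAlgCl p ≃+* ℂ) {I : Type} [Finite I]
    (K : I → Type) [∀ i, Field (K i)] [∀ i, NumberField (K i)] [∀ i, IsCMField (K i)]
    (hK : PairFlips K) (Ω : Finset ℂ) :
    ∃ E : Finset (Σ i, ((K i →+* ℂ) → ℝ)), E.card ≤ Ω.card ∧
      ForAllOutside ν K (fun q f => VanishingTimes (From p Ω) q f) E := by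
  obtain ⟨E, hE, h⟩ := exists_lines_forall ν K hK Ω
  exact ⟨E, hE, h _ fun q f hq hR => vanishing_from hq hR⟩

end Pool.Agent.Results.MP_e2821c_ag.ExceptionalSlopeLines
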